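import Pool.Agent.H43.G.R_seed8.Y957.VK.Stm

/-!
# Project VK: from the sums of `n^{-it}` to bilinear sums (job VK-SHIFT)
-/

set_option autoImplicit false

namespace Pool.Agent.Y125.VK

open Pool.Agent.Y957.VK Finset

/-- the Taylor polynomial of the logarithm -/
noncomputable def Lr (r : ℕ) (z : ℝ) : ℝ :=
  ∑ j ∈ Finset.range r, (-1) ^ j * z ^ (j + 1) / ((j : ℝ) + 1)

theorem hasDerivAt_D (r : ℕ) (x : ℝ) (hx : 0 ≤ x) :
    HasDerivAt (fun y => Real.log (1 + y) - Lr r y) ((-x) ^ r / (1 + x)) x := by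
  have h1 : HasDerivAt (fun y : ℝ => Real.log (1 + y)) (1 / (1 + x)) x := by
    have := ((hasDerivAt_id x).const_add 1).log (by simp; linarith)
    simpa using this
  have h2 : HasDerivAt (fun y : ℝ => Lr r y) (∑ j ∈ Finset.range r, (-x) ^ j) x := by
    unfold Lr
    refine HasDerivAt.fun_sum fun j _ => ?_
    have h3 := ((hasDerivAt_pow (j + 1) x).const_mul ((-1 : ℝ) ^ j)).div_const ((j : ℝ) + 1)
    refine h3.congr_deriv ?_
    have hj : (j : ℝ) + 1 ≠ 0 := by positivity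
    push_cast
    rw [neg_pow x j]
    field_simp
  refine (h1.sub h2).congr_deriv ?_
  have h4 := mul_neg_geom_sum (-x) r
  have h5 : (1 : ℝ) + x ≠ 0 := by linarith
  rw [eq_div_iff h5, sub_mul, one_div, inv_mul_cancel₀ h5]
  have h6 : (∑ j ∈ Finset.range r, (-x) ^ j) * (1 + x) = 1 - (-x) ^ r := by
    rw [← h4]
    ring
  rw [h6]
  ring

theorem log_bound (r : ℕ) (z : ℝ) (hz : 0 ≤ z) : |Real.log (1 + z) - Lr r z| ≤ z ^ (r + 1) := by
  have h1 : ∀ x ∈ Set.Icc (0 : ℝ) z, HasDerivWithinAt (fun y => Real.log (1 + y) - Lr r y)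
      ((-x) ^ r / (1 + x)) (Set.Icc 0 z) x :=
    fun x hx => (hasDerivAt_D r x hx.1).hasDerivWithinAt
  have h2 : ∀ x ∈ Set.Icc (0 : ℝ) z, ‖(-x) ^ r / (1 + x)‖ ≤ z ^ r := by
    intro x hx
    rw [norm_div, norm_pow, norm_neg, Real.norm_eq_abs, Real.norm_eq_abs, abs_of_nonneg hx.1,
      abs_of_pos (by linarith [hx.1])]
    rw [div_le_iff₀ (by linarith [hx.1])]
    have h3 : x ^ r ≤ z ^ r := pow_le_pow_left₀ hx.1 hx.2 r
    have h4 : 0 ≤ z ^ r := pow_nonneg hz r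
    nlinarith [hx.1]
  have h3 := (convex_Icc (0 : ℝ) z).norm_image_sub_le_of_norm_hasDerivWithin_le h1 h2
    (Set.left_mem_Icc.2 hz) (Set.right_mem_Icc.2 hz)
  have h4 : Lr r 0 = 0 := by
    unfold Lr
    refine Finset.sum_eq_zero fun j _ => ?_
    simp
  simp only [add_zero, Real.log_one, h4, sub_zero, Real.norm_eq_abs, abs_of_nonneg hz] at h3
  rw [pow_succ]
  exact h3

/-- the summand -/
theorem cpow_eq (t : ℝ) (n : ℕ) (hn : 1 ≤ n) :
    (n : ℂ) ^ (-(t : ℂ) * Complex.I) = Complex.exp (Complex.I * ((-t * Real.log n : ℝ) : ℂ)) := by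
  rw [Complex.cpow_def_of_ne_zero (by exact_mod_cast (by omega : n ≠ 0)), ← Complex.natCast_log]
  congr 1
  push_cast
  ring

theorem norm_cpow (t : ℝ) (n : ℕ) (hn : 1 ≤ n) : ‖(n : ℂ) ^ (-(t : ℂ) * Complex.I)‖ = 1 := by
  rw [cpow_eq t n hn]
  exact Complex.norm_exp_I_mul_ofReal _

theorem exp_sub_le (a b : ℝ) :
    ‖Complex.exp (Complex.I * (a : ℂ)) - Complex.exp (Complex.I * (b : ℂ))‖ ≤ |a - b| := by
  have h1 : Complex.exp (Complex.I * (a : ℂ)) - Complex.exp (Complex.I * (b : ℂ)) =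
      Complex.exp (Complex.I * (b : ℂ)) * (Complex.exp (Complex.I * ((a - b : ℝ) : ℂ)) - 1) := by
    rw [mul_sub, ← Complex.exp_add, mul_one]
    congr 2
    push_cast
    ring
  rw [h1, norm_mul, Complex.norm_exp_I_mul_ofReal, one_mul]
  exact Real.norm_exp_I_mul_ofReal_sub_one_le

/-- the phase of the bilinear sum -/
theorem phase_eq (t : ℝ) (n r x y : ℕ) (hn : 1 ≤ n) :
    2 * Real.pi * (∑ j ∈ Finset.Icc 1 r, al t n j * ((x : ℝ) * y) ^ j) =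
      -t * Lr r ((x : ℝ) * y / n) := by
  have hI : Finset.Icc 1 r = Finset.Ico 1 (r + 1) := rfl
  have hn0 : (n : ℝ) ≠ 0 := by exact_mod_cast (by omega : n ≠ 0)
  rw [hI, Finset.sum_Ico_eq_sum_range, Nat.add_sub_cancel]
  unfold Lr al
  rw [Finset.mul_sum, Finset.mul_sum]
  refine Finset.sum_congr rfl fun j _ => ?_
  have hj : (j : ℝ) + 1 ≠ 0 := by positivity
  have hj' : (1 : ℝ) + j ≠ 0 := by positivity
  have hpi : Real.pi ≠ 0 := Real.pi_ne_zero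
  rw [div_pow, add_comm 1 j, pow_succ (-1 : ℝ) j]
  push_cast
  field_simp

theorem term_eq (t : ℝ) (n r x y : ℕ) (hn : 1 ≤ n) :
    ((n + x * y : ℕ) : ℂ) ^ (-(t : ℂ) * Complex.I) =
      (n : ℂ) ^ (-(t : ℂ) * Complex.I) *
        Complex.exp (Complex.I * ((-t * Real.log (1 + (x : ℝ) * y / n) : ℝ) : ℂ)) := by
  rw [cpow_eq t n hn, cpow_eq t (n + x * y) (by omega), ← Complex.exp_add, ← mul_add,
    ← Complex.ofReal_add]
  congr 3
  have hn0 : (0 : ℝ) < n := by exact_mod_cast hn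
  have h1 : ((n + x * y : ℕ) : ℝ) = n * (1 + (x : ℝ) * y / n) := by
    push_cast
    field_simp
  rw [h1, Real.log_mul hn0.ne' (by positivity)]
  ring

/-- one value of `n` -/
theorem inner (t : ℝ) (N n M r : ℕ) (hN : 1 ≤ N) (hn : N < n) :
    ‖∑ x ∈ Finset.Icc 1 M, ∑ y ∈ Finset.Icc 1 M,
        ((n + x * y : ℕ) : ℂ) ^ (-(t : ℂ) * Complex.I)‖ ≤
      ‖TT r M (al t n)‖ + (M : ℝ) ^ 2 * (|t| * ((M : ℝ) ^ 2 / N) ^ (r + 1)) := by
  have hn1 : 1 ≤ n := by omega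
  have hN0 : (0 : ℝ) < N := by exact_mod_cast hN
  have hn0 : (0 : ℝ) < n := by exact_mod_cast hn1
  have h1 : ∀ x ∈ Finset.Icc 1 M, ∀ y ∈ Finset.Icc 1 M,
      ‖((n + x * y : ℕ) : ℂ) ^ (-(t : ℂ) * Complex.I) - (n : ℂ) ^ (-(t : ℂ) * Complex.I) *
        Complex.exp (2 * Real.pi * Complex.I *
          ((∑ j ∈ Finset.Icc 1 r, al t n j * ((x : ℝ) * y) ^ j : ℝ) : ℂ))‖ ≤
      |t| * ((M : ℝ) ^ 2 / N) ^ (r + 1) := by
    intro x hx y hy
    have hx' := Finset.mem_Icc.1 hx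
    have hy' := Finset.mem_Icc.1 hy
    have h2 : Complex.exp (2 * Real.pi * Complex.I *
          ((∑ j ∈ Finset.Icc 1 r, al t n j * ((x : ℝ) * y) ^ j : ℝ) : ℂ)) =
        Complex.exp (Complex.I * ((-t * Lr r ((x : ℝ) * y / n) : ℝ) : ℂ)) := by
      rw [← phase_eq t n r x y hn1]
      congr 1
      push_cast
      ring
    rw [h2, term_eq t n r x y hn1, ← mul_sub, norm_mul, norm_cpow t n hn1, one_mul]
    refine (exp_sub_le _ _).trans ?_
    rw [← mul_sub, abs_mul, abs_neg]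
    refine mul_le_mul_of_nonneg_left ?_ (abs_nonneg _)
    refine (log_bound r _ (by positivity)).trans ?_
    refine pow_le_pow_left₀ (by positivity) ?_ _
    have h3 : (x : ℝ) ≤ M := by exact_mod_cast hx'.2
    have h4 : (y : ℝ) ≤ M := by exact_mod_cast hy'.2
    have h5 : (N : ℝ) ≤ n := by exact_mod_cast hn.le
    have h6 : (x : ℝ) * y ≤ (M : ℝ) ^ 2 := by
      rw [sq]
      exact mul_le_mul h3 h4 (by positivity) (by positivity)
    exact div_le_div₀ (by positivity) h6 hN0 h5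
  have h2 : ∑ x ∈ Finset.Icc 1 M, ∑ y ∈ Finset.Icc 1 M,
      ((n + x * y : ℕ) : ℂ) ^ (-(t : ℂ) * Complex.I) =
      (n : ℂ) ^ (-(t : ℂ) * Complex.I) * TT r M (al t n) +
      ∑ x ∈ Finset.Icc 1 M, ∑ y ∈ Finset.Icc 1 M,
        (((n + x * y : ℕ) : ℂ) ^ (-(t : ℂ) * Complex.I) - (n : ℂ) ^ (-(t : ℂ) * Complex.I) *
        Complex.exp (2 * Real.pi * Complex.I *
          ((∑ j ∈ Finset.Icc 1 r, al t n j * ((x : ℝ) * y) ^ j : ℝ) : ℂ))) := by
    unfold TT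
    simp only [Finset.sum_sub_distrib, Finset.mul_sum]
    ring
  rw [h2]
  refine (norm_add_le _ _).trans ?_
  rw [norm_mul, norm_cpow t n hn1, one_mul]
  refine add_le_add le_rfl ?_
  refine (norm_sum_le _ _).trans ?_
  refine (Finset.sum_le_sum fun x hx => (norm_sum_le _ _).trans
    (Finset.sum_le_sum fun y hy => h1 x hx y hy)).trans ?_
  simp only [Finset.sum_const, Nat.card_Icc, Nat.add_sub_cancel, nsmul_eq_mul]
  rw [sq]
  linarith

/-- the shift of a sum -/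
theorem shift_one (t : ℝ) (N N' h : ℕ) (hNN : N ≤ N') :
    ‖∑ n ∈ Finset.Ioc N N', (n : ℂ) ^ (-(t : ℂ) * Complex.I) -
      ∑ n ∈ Finset.Ioc N N', ((n + h : ℕ) : ℂ) ^ (-(t : ℂ) * Complex.I)‖ ≤ 2 * h := by
  obtain ⟨g, hg⟩ : ∃ g : ℕ → ℂ, ∀ n, g n = (n : ℂ) ^ (-(t : ℂ) * Complex.I) := ⟨_, fun _ => rfl⟩
  simp only [← hg]
  have hb : ∀ a b : ℕ, ‖∑ n ∈ Finset.Ioc a (a + b), g n‖ ≤ b := by
    intro a b
    refine (norm_sum_le _ _).trans ?_
    have h1 : ∀ n ∈ Finset.Ioc a (a + b), ‖g n‖ ≤ 1 := by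
      intro n hn
      rw [hg, norm_cpow t n (by have := (Finset.mem_Ioc.1 hn).1; omega)]
    refine (Finset.sum_le_sum h1).trans ?_
    simp
  have h1 : ∑ n ∈ Finset.Ioc N N', g (n + h) = ∑ n ∈ Finset.Ioc (N + h) (N' + h), g n := by
    rw [← Finset.map_add_right_Ioc, Finset.sum_map]
    rfl
  have h2 : ∑ n ∈ Finset.Ioc N N', g n + ∑ n ∈ Finset.Ioc N' (N' + h), g n =
      ∑ n ∈ Finset.Ioc N (N + h), g n + ∑ n ∈ Finset.Ioc (N + h) (N' + h), g n := by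
    rw [Finset.sum_Ioc_consecutive g hNN (by omega),
      Finset.sum_Ioc_consecutive g (by omega) (by omega)]
  have h3 : ∑ n ∈ Finset.Ioc N N', g n - ∑ n ∈ Finset.Ioc N N', g (n + h) =
      ∑ n ∈ Finset.Ioc N (N + h), g n - ∑ n ∈ Finset.Ioc N' (N' + h), g n := by
    rw [h1]
    linear_combination h2
  rw [h3]
  refine (norm_sub_le _ _).trans ?_
  linarith [hb N h, hb N' h]

theorem shift : S_SHIFT := by
  intro N N' M r t hN hNN hN2 hM hMN hr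
  obtain ⟨S, hS⟩ : ∃ S, S = ∑ n ∈ Finset.Ioc N N', (n : ℂ) ^ (-(t : ℂ) * Complex.I) := ⟨_, rfl⟩
  rw [← hS]
  have hM0 : (0 : ℝ) < M := by exact_mod_cast hM
  have h1 : (M : ℂ) ^ 2 * S = ∑ x ∈ Finset.Icc 1 M, ∑ y ∈ Finset.Icc 1 M,
      (S - ∑ n ∈ Finset.Ioc N N', ((n + x * y : ℕ) : ℂ) ^ (-(t : ℂ) * Complex.I)) +
      ∑ n ∈ Finset.Ioc N N', ∑ x ∈ Finset.Icc 1 M, ∑ y ∈ Finset.Icc 1 M,
        ((n + x * y : ℕ) : ℂ) ^ (-(t : ℂ) * Complex.I) := by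
    have h2 : ∑ n ∈ Finset.Ioc N N', ∑ x ∈ Finset.Icc 1 M, ∑ y ∈ Finset.Icc 1 M,
        ((n + x * y : ℕ) : ℂ) ^ (-(t : ℂ) * Complex.I) =
        ∑ x ∈ Finset.Icc 1 M, ∑ y ∈ Finset.Icc 1 M, ∑ n ∈ Finset.Ioc N N',
        ((n + x * y : ℕ) : ℂ) ^ (-(t : ℂ) * Complex.I) := by
      rw [Finset.sum_comm]
      refine Finset.sum_congr rfl fun x _ => ?_
      rw [Finset.sum_comm]
    rw [h2]
    simp only [Finset.sum_sub_distrib, Finset.sum_const, Nat.card_Icc, Nat.add_sub_cancel,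
      nsmul_eq_mul]
    ring
  have h3 : (M : ℝ) ^ 2 * ‖S‖ ≤ (M : ℝ) ^ 2 * (2 * (M : ℝ) ^ 2) +
      ∑ n ∈ Finset.Ioc N N', (‖TT r M (al t n)‖ +
        (M : ℝ) ^ 2 * (|t| * ((M : ℝ) ^ 2 / N) ^ (r + 1))) := by
    have h4 : ‖(M : ℂ) ^ 2 * S‖ = (M : ℝ) ^ 2 * ‖S‖ := by
      rw [norm_mul, norm_pow, Complex.norm_natCast]
    rw [← h4, h1]
    refine (norm_add_le _ _).trans (add_le_add ?_ ?_)
    · refine (norm_sum_le _ _).trans ?_
      refine (Finset.sum_le_sum (g := fun _ => (M : ℝ) * (2 * (M : ℝ) ^ 2)) fun x hx =>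
        (norm_sum_le _ _).trans ?_).trans ?_
      · refine (Finset.sum_le_sum (g := fun _ => 2 * (M : ℝ) ^ 2) fun y hy => ?_).trans ?_
        · rw [hS]
          refine (shift_one t N N' (x * y) hNN).trans ?_
          have hx' : (x : ℝ) ≤ M := by exact_mod_cast (Finset.mem_Icc.1 hx).2
          have hy' : (y : ℝ) ≤ M := by exact_mod_cast (Finset.mem_Icc.1 hy).2
          have : (x : ℝ) * y ≤ M * M := mul_le_mul hx' hy' (by positivity) (by positivity)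
          push_cast
          nlinarith
        · simp
      · simp only [Finset.sum_const, Nat.card_Icc, Nat.add_sub_cancel, nsmul_eq_mul]
        rw [sq]
        linarith
    · refine (norm_sum_le _ _).trans (Finset.sum_le_sum fun n hn => ?_)
      exact inner t N n M r hN (Finset.mem_Ioc.1 hn).1
  rw [Finset.sum_add_distrib] at h3
  have h5 : ∑ n ∈ Finset.Ioc N N', (M : ℝ) ^ 2 * (|t| * ((M : ℝ) ^ 2 / N) ^ (r + 1)) ≤
      (M : ℝ) ^ 2 * (N * |t| * ((M : ℝ) ^ 2 / N) ^ (r + 1)) := by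
    rw [Finset.sum_const, Nat.card_Ioc, nsmul_eq_mul]
    have h6 : ((N' - N : ℕ) : ℝ) ≤ N := by exact_mod_cast (by omega : N' - N ≤ N)
    have h7 : 0 ≤ (M : ℝ) ^ 2 * (|t| * ((M : ℝ) ^ 2 / N) ^ (r + 1)) := by positivity
    calc _ ≤ (N : ℝ) * ((M : ℝ) ^ 2 * (|t| * ((M : ℝ) ^ 2 / N) ^ (r + 1))) :=
          mul_le_mul_of_nonneg_right h6 h7
      _ = _ := by ring
  have h8 : (0 : ℝ) < (M : ℝ) ^ 2 := by positivity
  have h9 : (M : ℝ) ^ 2 * ‖S‖ ≤ (M : ℝ) ^ 2 * (1 / (M : ℝ) ^ 2 *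
      ∑ n ∈ Finset.Ioc N N', ‖TT r M (al t n)‖ + 2 * (M : ℝ) ^ 2 +
      N * |t| * ((M : ℝ) ^ 2 / N) ^ (r + 1)) := by
    have h10 : (M : ℝ) ^ 2 * (1 / (M : ℝ) ^ 2 *
      ∑ n ∈ Finset.Ioc N N', ‖TT r M (al t n)‖ + 2 * (M : ℝ) ^ 2 +
      N * |t| * ((M : ℝ) ^ 2 / N) ^ (r + 1)) = ∑ n ∈ Finset.Ioc N N', ‖TT r M (al t n)‖ +
        (M : ℝ) ^ 2 * (2 * (M : ℝ) ^ 2) + (M : ℝ) ^ 2 *
          (N * |t| * ((M : ℝ) ^ 2 / N) ^ (r + 1)) := by
      field_simp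
    rw [h10]
    linarith
  exact le_of_mul_le_mul_left h9 h8

end Pool.Agent.Y125.VK
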